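import Mathlib

/-!
# A simple algebra in the variety of an algebra of which it is not a section

Over every infinite field (in particular over every algebraically closed field) there are
three-dimensional algebras `A`, `A'` (one binary operation) such that `A` is simple (hence
prime), every identity of `A'` holds in `A`, and `A` is not isomorphic to a section of `A'`.
-/

namespace Pool.Agent.Results.MP_2fa119_al.SimpleNotSection

open Polynomial

universe u

/-- The free module of rank three over `R` with basis `e, h, f` (coordinates in this order); the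
parameter `t` enters its multiplication. -/
def Tw (R : Type u) (_t : R) : Type u := R × R × R

namespace Tw

variable {R : Type u} [CommRing R] {t : R}

instance : AddCommGroup (Tw R t) := inferInstanceAs (AddCommGroup (R × R × R))

instance {k : Type u} [CommRing k] [Algebra k R] : Module k (Tw R t) :=
  inferInstanceAs (Module k (R × R × R))

/-- `h e = e = - e h`, `f h = f = - h f`, `e f = h = - f e`, `h h = t f`, `e e = f f = 0`. -/
instance : Mul (Tw R t) :=
  ⟨fun a b => (a.2.1 * b.1 - a.1 * b.2.1, a.1 * b.2.2 - a.2.2 * b.1,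
    a.2.2 * b.2.1 - a.2.1 * b.2.2 + t * (a.2.1 * b.2.1))⟩

theorem mul_def (a b : Tw R t) : a * b =
    ((a.2.1 * b.1 - a.1 * b.2.1, a.1 * b.2.2 - a.2.2 * b.1,
      a.2.2 * b.2.1 - a.2.1 * b.2.2 + t * (a.2.1 * b.2.1)) : R × R × R) := rfl

omit [CommRing R] in
theorem ext' {a b : Tw R t} (h1 : a.1 = b.1) (h2 : a.2.1 = b.2.1) (h3 : a.2.2 = b.2.2) :
    a = b := Prod.ext h1 (Prod.ext h2 h3)

/-- The element `a e + b h + c f`. -/
def mk (t : R) (a b c : R) : Tw R t := ((a, b, c) : R × R × R)

theorem add_1 (a b : Tw R t) : (a + b).1 = a.1 + b.1 := rfl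
theorem add_2 (a b : Tw R t) : (a + b).2.1 = a.2.1 + b.2.1 := rfl
theorem add_3 (a b : Tw R t) : (a + b).2.2 = a.2.2 + b.2.2 := rfl
theorem zero_1 : (0 : Tw R t).1 = 0 := rfl
theorem zero_2 : (0 : Tw R t).2.1 = 0 := rfl
theorem zero_3 : (0 : Tw R t).2.2 = 0 := rfl
theorem mul_1 (a b : Tw R t) : (a * b).1 = a.2.1 * b.1 - a.1 * b.2.1 := rfl
theorem mul_2 (a b : Tw R t) : (a * b).2.1 = a.1 * b.2.2 - a.2.2 * b.1 := rfl
theorem mul_3 (a b : Tw R t) :
    (a * b).2.2 = a.2.2 * b.2.1 - a.2.1 * b.2.2 + t * (a.2.1 * b.2.1) := rfl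

theorem smul_1 {k : Type u} [CommRing k] [Algebra k R] (c : k) (a : Tw R t) :
    (c • a).1 = c • a.1 := rfl
theorem smul_2 {k : Type u} [CommRing k] [Algebra k R] (c : k) (a : Tw R t) :
    (c • a).2.1 = c • a.2.1 := rfl
theorem smul_3 {k : Type u} [CommRing k] [Algebra k R] (c : k) (a : Tw R t) :
    (c • a).2.2 = c • a.2.2 := rfl

instance : NonUnitalNonAssocRing (Tw R t) :=
  { (inferInstance : AddCommGroup (Tw R t)), (inferInstance : Mul (Tw R t)) with
    left_distrib := fun a b c => ext'
      (by simp only [mul_1, add_1, add_2]; ring)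
      (by simp only [mul_2, add_1, add_2, add_3]; ring)
      (by simp only [mul_3, add_2, add_3]; ring)
    right_distrib := fun a b c => ext'
      (by simp only [mul_1, add_1, add_2]; ring)
      (by simp only [mul_2, add_1, add_2, add_3]; ring)
      (by simp only [mul_3, add_2, add_3]; ring)
    zero_mul := fun a => ext'
      (by simp only [mul_1, zero_1, zero_2]; ring)
      (by simp only [mul_2, zero_1, zero_2, zero_3]; ring)
      (by simp only [mul_3, zero_2, zero_3]; ring)
    mul_zero := fun a => ext'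
      (by simp only [mul_1, zero_1, zero_2]; ring)
      (by simp only [mul_2, zero_1, zero_2, zero_3]; ring)
      (by simp only [mul_3, zero_2, zero_3]; ring) }

instance {k : Type u} [CommRing k] [Algebra k R] : IsScalarTower k (Tw R t) (Tw R t) :=
  ⟨fun c a b => ext'
    (by simp only [smul_eq_mul, mul_1, smul_1, smul_2, Algebra.smul_def]; ring)
    (by simp only [smul_eq_mul, mul_2, smul_1, smul_2, smul_3, Algebra.smul_def]; ring)
    (by simp only [smul_eq_mul, mul_3, smul_2, smul_3, Algebra.smul_def]; ring)⟩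

instance {k : Type u} [CommRing k] [Algebra k R] : SMulCommClass k (Tw R t) (Tw R t) :=
  ⟨fun c a b => ext'
    (by simp only [smul_eq_mul, mul_1, smul_1, smul_2, Algebra.smul_def]; ring)
    (by simp only [smul_eq_mul, mul_2, smul_1, smul_2, smul_3, Algebra.smul_def]; ring)
    (by simp only [smul_eq_mul, mul_3, smul_2, smul_3, Algebra.smul_def]; ring)⟩

end Tw

section Defs

variable (k : Type u) [Field k] (A A' : Type u)
  [NonUnitalNonAssocRing A] [Module k A] [IsScalarTower k A A] [SMulCommClass k A A]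
  [NonUnitalNonAssocRing A'] [Module k A'] [IsScalarTower k A' A'] [SMulCommClass k A' A']

/-- Every polynomial identity of `A'` is an identity of `A`, i.e. `A` lies in the variety
generated by `A'`. -/
def InVarietyOf : Prop :=
  ∀ f : FreeNonUnitalNonAssocAlgebra k ℕ,
    (∀ v : ℕ → A', FreeNonUnitalNonAssocAlgebra.lift k v f = 0) →
      ∀ v : ℕ → A, FreeNonUnitalNonAssocAlgebra.lift k v f = 0

/-- `A` is isomorphic to a section `R/I` of `A'`: there is a surjective homomorphism from a
subalgebra `R` of `A'` onto `A` (with kernel `I`). -/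
def IsSectionOf : Prop :=
  ∃ (R : NonUnitalSubalgebra k A') (φ : R →ₙₐ[k] A), Function.Surjective φ

/-- A two-sided ideal: a subspace closed under left and right multiplication. -/
def IsIdeal (I : Submodule k A) : Prop := ∀ a : A, ∀ x ∈ I, a * x ∈ I ∧ x * a ∈ I

/-- `A` is simple: the product is nonzero and the only ideals are `0` and `A`. -/
def IsSimpleAlg : Prop :=
  (∃ a b : A, a * b ≠ 0) ∧ ∀ I : Submodule k A, IsIdeal k A I → I = ⊥ ∨ I = ⊤

/-- The product of any two nonzero ideals is nonzero. -/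
def IsPrimeAlg : Prop :=
  ∀ I J : Submodule k A, IsIdeal k A I → IsIdeal k A J → I ≠ ⊥ → J ≠ ⊥ →
    ∃ x ∈ I, ∃ y ∈ J, x * y ≠ 0

end Defs

section Proof

variable {k : Type u} [Field k]

theorem map_lift {A B : Type u} [NonUnitalNonAssocRing A] [Module k A] [IsScalarTower k A A]
    [SMulCommClass k A A] [NonUnitalNonAssocRing B] [Module k B] [IsScalarTower k B B]
    [SMulCommClass k B B] {X : Type} (φ : A →ₙₐ[k] B) (v : X → A)
    (f : FreeNonUnitalNonAssocAlgebra k X) :
    φ (FreeNonUnitalNonAssocAlgebra.lift k v f) =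
      FreeNonUnitalNonAssocAlgebra.lift k (fun n => φ (v n)) f := by
  have : φ.comp (FreeNonUnitalNonAssocAlgebra.lift k v) =
      FreeNonUnitalNonAssocAlgebra.lift k (fun n => φ (v n)) := by
    apply FreeNonUnitalNonAssocAlgebra.hom_ext
    intro x
    simp
  exact DFunLike.congr_fun this f

/-- Specialisation `T ↦ s` of the generic algebra over `k[T]`. -/
noncomputable def spec (s : k) : Tw k[X] (X : k[X]) →ₙₐ[k] Tw k s where
  toFun a := Tw.mk s (a.1.eval s) (a.2.1.eval s) (a.2.2.eval s)
  map_smul' c a := Tw.ext'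
    (by change (c • a.1).eval s = c • a.1.eval s; simp)
    (by change (c • a.2.1).eval s = c • a.2.1.eval s; simp)
    (by change (c • a.2.2).eval s = c • a.2.2.eval s; simp)
  map_zero' := Tw.ext' (by change (0 : k[X]).eval s = 0; simp)
    (by change (0 : k[X]).eval s = 0; simp) (by change (0 : k[X]).eval s = 0; simp)
  map_add' a b := Tw.ext'
    (by change (a.1 + b.1).eval s = a.1.eval s + b.1.eval s; simp)
    (by change (a.2.1 + b.2.1).eval s = a.2.1.eval s + b.2.1.eval s; simp)
    (by change (a.2.2 + b.2.2).eval s = a.2.2.eval s + b.2.2.eval s; simp)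
  map_mul' a b := Tw.ext'
    (by
      change (a.2.1 * b.1 - a.1 * b.2.1).eval s =
        a.2.1.eval s * b.1.eval s - a.1.eval s * b.2.1.eval s
      simp)
    (by
      change (a.1 * b.2.2 - a.2.2 * b.1).eval s =
        a.1.eval s * b.2.2.eval s - a.2.2.eval s * b.1.eval s
      simp)
    (by
      change (a.2.2 * b.2.1 - a.2.1 * b.2.2 + X * (a.2.1 * b.2.1)).eval s =
        a.2.2.eval s * b.2.1.eval s - a.2.1.eval s * b.2.2.eval s +
          s * (a.2.1.eval s * b.2.1.eval s)
      simp)

/-- For `s ≠ 0` the algebra with parameter `s` is isomorphic to the one with parameter `1`. -/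
def rescale (s : k) (hs : s ≠ 0) : Tw k s →ₙₐ[k] Tw k 1 where
  toFun a := Tw.mk 1 (s * a.1) a.2.1 (s⁻¹ * a.2.2)
  map_smul' c a := Tw.ext'
    (by change s * (c • a.1) = c • (s * a.1); simp only [smul_eq_mul]; ring)
    rfl
    (by change s⁻¹ * (c • a.2.2) = c • (s⁻¹ * a.2.2); simp only [smul_eq_mul]; ring)
  map_zero' := Tw.ext' (mul_zero s) rfl (mul_zero _)
  map_add' a b := Tw.ext' (mul_add s a.1 b.1) rfl (mul_add s⁻¹ a.2.2 b.2.2)
  map_mul' a b := Tw.ext'
    (by
      rw [Tw.mul_1]
      change s * (a.2.1 * b.1 - a.1 * b.2.1) = a.2.1 * (s * b.1) - s * a.1 * b.2.1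
      ring)
    (by
      rw [Tw.mul_2]
      change a.1 * b.2.2 - a.2.2 * b.1 = s * a.1 * (s⁻¹ * b.2.2) - s⁻¹ * a.2.2 * (s * b.1)
      field_simp)
    (by
      rw [Tw.mul_3]
      change s⁻¹ * (a.2.2 * b.2.1 - a.2.1 * b.2.2 + s * (a.2.1 * b.2.1)) =
        s⁻¹ * a.2.2 * b.2.1 - a.2.1 * (s⁻¹ * b.2.2) + 1 * (a.2.1 * b.2.1)
      field_simp)

theorem rescale_injective (s : k) (hs : s ≠ 0) {a : Tw k s} (h : rescale s hs a = 0) :
    a = 0 := by
  have h1 : s * a.1 = 0 := congrArg (fun x : Tw k 1 => x.1) h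
  have h2 : a.2.1 = 0 := congrArg (fun x : Tw k 1 => x.2.1) h
  have h3 : s⁻¹ * a.2.2 = 0 := congrArg (fun x : Tw k 1 => x.2.2) h
  exact Tw.ext' ((mul_eq_zero.mp h1).resolve_left hs) h2
    ((mul_eq_zero.mp h3).resolve_left (inv_ne_zero hs))

theorem inVariety [Infinite k] : InVarietyOf k (Tw k (0 : k)) (Tw k (1 : k)) := by
  intro f hf v
  -- the constant lift of the substitution
  let w : ℕ → Tw k[X] (X : k[X]) := fun n => Tw.mk X (C (v n).1) (C (v n).2.1) (C (v n).2.2)
  have hspec : ∀ n : ℕ, spec 0 (w n) = v n := fun n => Tw.ext'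
    (by change (C (v n).1).eval 0 = (v n).1; rw [eval_C])
    (by change (C (v n).2.1).eval 0 = (v n).2.1; rw [eval_C])
    (by change (C (v n).2.2).eval 0 = (v n).2.2; rw [eval_C])
  set P := FreeNonUnitalNonAssocAlgebra.lift k w f with hP
  have hvan : ∀ s : k, s ≠ 0 → spec s P = 0 := by
    intro s hs
    apply rescale_injective s hs
    rw [hP, map_lift, map_lift]
    exact hf _
  have hall : ∀ Q : k[X], (∀ s : k, s ≠ 0 → Q.eval s = 0) → Q.eval 0 = 0 := by
    intro Q hQ
    have : X * Q = 0 := by
      apply Polynomial.funext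
      intro s
      by_cases hs : s = 0
      · simp [hs]
      · simp [hQ s hs]
    rcases mul_eq_zero.mp this with h | h
    · exact absurd h X_ne_zero
    · simp [h]
  have h0 : spec (0 : k) P = 0 := Tw.ext'
    (hall P.1 fun s hs => congrArg (fun x : Tw k s => x.1) (hvan s hs))
    (hall P.2.1 fun s hs => congrArg (fun x : Tw k s => x.2.1) (hvan s hs))
    (hall P.2.2 fun s hs => congrArg (fun x : Tw k s => x.2.2) (hvan s hs))
  rw [hP, map_lift] at h0
  have hv : (fun n => spec (0 : k) (w n)) = v := funext hspec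
  rwa [hv] at h0

theorem simple : IsSimpleAlg k (Tw k (0 : k)) := by
  refine ⟨⟨Tw.mk 0 0 1 0, Tw.mk 0 1 0 0, ?_⟩, ?_⟩
  · intro h
    have h1 : (1 : k) * 1 - 0 * 0 = 0 := congrArg (fun x : Tw k (0 : k) => x.1) h
    simp at h1
  · intro I hI
    by_cases hbot : I = ⊥
    · exact Or.inl hbot
    right
    obtain ⟨x, hx, hx0⟩ := Submodule.exists_mem_ne_zero_of_ne_bot hbot
    let e : Tw k (0 : k) := Tw.mk 0 1 0 0
    let h : Tw k (0 : k) := Tw.mk 0 0 1 0
    let f : Tw k (0 : k) := Tw.mk 0 0 0 1
    -- if a nonzero multiple of `h` lies in `I`, then `I` is everything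
    have key : ∀ c : k, c ≠ 0 → c • h ∈ I → I = ⊤ := by
      intro c hc hch
      have hh : h ∈ I := by
        have := I.smul_mem c⁻¹ hch
        rwa [smul_smul, inv_mul_cancel₀ hc, one_smul] at this
      have he : e ∈ I := by
        have h1 := (hI e h hh).2
        have e1 : h * e = e := Tw.ext'
          (by rw [Tw.mul_1]; change (1 : k) * 1 - 0 * 0 = 1; ring)
          (by rw [Tw.mul_2]; change (0 : k) * 0 - 0 * 1 = 0; ring)
          (by rw [Tw.mul_3]; change (0 : k) * 0 - 1 * 0 + 0 * (1 * 0) = 0; ring)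
        rwa [e1] at h1
      have hf : f ∈ I := by
        have h1 := (hI f h hh).1
        have e1 : f * h = f := Tw.ext'
          (by rw [Tw.mul_1]; change (0 : k) * 0 - 0 * 1 = 0; ring)
          (by rw [Tw.mul_2]; change (0 : k) * 0 - 1 * 0 = 0; ring)
          (by rw [Tw.mul_3]; change (1 : k) * 1 - 0 * 0 + 0 * (0 * 1) = 1; ring)
        rwa [e1] at h1
      rw [eq_top_iff]
      intro y _
      have h2 := I.add_mem (I.smul_mem y.1 he)
        (I.add_mem (I.smul_mem y.2.1 hh) (I.smul_mem y.2.2 hf))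
      have e2 : y.1 • e + (y.2.1 • h + y.2.2 • f) = y := Tw.ext'
        (by change y.1 * 1 + (y.2.1 * 0 + y.2.2 * 0) = y.1; ring)
        (by change y.1 * 0 + (y.2.1 * 1 + y.2.2 * 0) = y.2.1; ring)
        (by change y.1 * 0 + (y.2.1 * 0 + y.2.2 * 1) = y.2.2; ring)
      rwa [e2] at h2
    by_cases hb : x.2.1 = 0
    · by_cases hc : x.2.2 = 0
      · have ha : x.1 ≠ 0 := fun ha => hx0 (Tw.ext' ha hb hc)
        apply key x.1 ha
        have h1 := (hI f x hx).2
        have e1 : x * f = x.1 • h := Tw.ext'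
          (by rw [Tw.mul_1]; change x.2.1 * 0 - x.1 * 0 = x.1 * 0; ring)
          (by rw [Tw.mul_2]; change x.1 * 1 - x.2.2 * 0 = x.1 * 1; ring)
          (by
            rw [Tw.mul_3]
            change x.2.2 * 0 - x.2.1 * 1 + 0 * (x.2.1 * 0) = x.1 * 0
            rw [hb]; ring)
        rwa [e1] at h1
      · apply key x.2.2 hc
        have h1 := (hI e x hx).1
        have e1 : e * x = x.2.2 • h := Tw.ext'
          (by
            rw [Tw.mul_1]
            change (0 : k) * x.1 - 1 * x.2.1 = x.2.2 * 0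
            rw [hb]; ring)
          (by rw [Tw.mul_2]; change (1 : k) * x.2.2 - 0 * x.1 = x.2.2 * 1; ring)
          (by
            rw [Tw.mul_3]
            change (0 : k) * x.2.1 - 0 * x.2.2 + 0 * (0 * x.2.1) = x.2.2 * 0
            ring)
        rwa [e1] at h1
    · apply key x.2.1 hb
      have h1 := (hI h _ (hI h x hx).1).1
      have h2 := I.sub_mem hx h1
      have e1 : x - h * (h * x) = x.2.1 • h := by
        have e3 : h * x = Tw.mk 0 x.1 0 (-x.2.2) := Tw.ext'
          (by rw [Tw.mul_1]; change (1 : k) * x.1 - 0 * x.2.1 = x.1; ring)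
          (by rw [Tw.mul_2]; change (0 : k) * x.2.2 - 0 * x.1 = 0; ring)
          (by
            rw [Tw.mul_3]
            change (0 : k) * x.2.1 - 1 * x.2.2 + 0 * (1 * x.2.1) = -x.2.2
            ring)
        have e4 : h * (h * x) = Tw.mk 0 x.1 0 x.2.2 := by
          rw [e3]
          exact Tw.ext'
            (by rw [Tw.mul_1]; change (1 : k) * x.1 - 0 * 0 = x.1; ring)
            (by rw [Tw.mul_2]; change (0 : k) * (-x.2.2) - 0 * x.1 = 0; ring)
            (by
              rw [Tw.mul_3]
              change (0 : k) * 0 - 1 * (-x.2.2) + 0 * (1 * 0) = x.2.2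
              ring)
        rw [e4]
        exact Tw.ext'
          (by change x.1 - x.1 = x.2.1 * 0; ring)
          (by change x.2.1 - 0 = x.2.1 * 1; ring)
          (by change x.2.2 - x.2.2 = x.2.1 * 0; ring)
      rwa [e1] at h2

theorem prime_of_simple {A : Type u} [NonUnitalNonAssocRing A] [Module k A]
    (h : IsSimpleAlg k A) : IsPrimeAlg k A := by
  obtain ⟨⟨a, b, hab⟩, hs⟩ := h
  intro I J hI hJ hI0 hJ0
  have h1 := (hs I hI).resolve_left hI0
  have h2 := (hs J hJ).resolve_left hJ0
  exact ⟨a, by rw [h1]; trivial, b, by rw [h2]; trivial, hab⟩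

theorem finrank_eq (t : k) : Module.finrank k (Tw k t) = 3 := by
  change Module.finrank k (k × k × k) = 3
  simp

instance finite (t : k) : Module.Finite k (Tw k t) :=
  inferInstanceAs (Module.Finite k (k × k × k))

theorem not_section : ¬ IsSectionOf k (Tw k (0 : k)) (Tw k (1 : k)) := by
  rintro ⟨R, φ, hφ⟩
  let φ' : R.toSubmodule →ₗ[k] Tw k (0 : k) :=
    { toFun := fun x => φ x, map_add' := fun x y => map_add φ _ _,
      map_smul' := fun c x => map_smul φ c _ }
  have hsurj : Function.Surjective φ' := hφ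
  have hle : Module.finrank k (Tw k (0 : k)) ≤ Module.finrank k R.toSubmodule :=
    LinearMap.finrank_le_finrank_of_surjective hsurj
  have hge : Module.finrank k R.toSubmodule ≤ Module.finrank k (Tw k (1 : k)) :=
    Submodule.finrank_le _
  rw [finrank_eq] at hle hge
  have heq : Module.finrank k R.toSubmodule = 3 := le_antisymm hge hle
  have htop : R.toSubmodule = ⊤ :=
    Submodule.eq_top_of_finrank_eq (by rw [heq, finrank_eq])
  have hinj : Function.Injective φ' :=
    (LinearMap.injective_iff_surjective_of_finrank_eq_finrank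
      (by rw [heq, finrank_eq])).mpr hsurj
  have hmem : ∀ x : Tw k (1 : k), x ∈ R := fun x => by
    have : x ∈ R.toSubmodule := by rw [htop]; trivial
    exact this
  let h : R := ⟨Tw.mk 1 0 1 0, hmem _⟩
  have hsq : ∀ y : Tw k (0 : k), y * y = 0 := fun y => Tw.ext'
    (by rw [Tw.mul_1]; change y.2.1 * y.1 - y.1 * y.2.1 = 0; ring)
    (by rw [Tw.mul_2]; change y.1 * y.2.2 - y.2.2 * y.1 = 0; ring)
    (by
      rw [Tw.mul_3]
      change y.2.2 * y.2.1 - y.2.1 * y.2.2 + 0 * (y.2.1 * y.2.1) = 0
      ring)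
  have h1 : φ (h * h) = 0 := by rw [map_mul, hsq]
  have h2 : φ' (h * h : R) = φ' (0 : R) := by
    change φ (h * h) = φ 0
    rw [h1, map_zero]
  have h3 : (h * h : R) = 0 := hinj h2
  have h4 : ((h * h : R) : Tw k (1 : k)).2.2 = 0 := by rw [h3]; rfl
  change (0 : k) * 1 - 1 * 0 + 1 * (1 * 1) = 0 at h4
  simp at h4

end Proof

/-- Over every infinite field `k`, in particular over every algebraically closed field, there
are three-dimensional `k`-algebras `A` and `A'` such that `A` is simple and prime, every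
identity of `A'` holds in `A`, and `A` is not isomorphic to a section of `A'`. -/
theorem result (k : Type u) [Field k] [Infinite k] :
    ∃ (A A' : Type u) (_ : NonUnitalNonAssocRing A) (_ : Module k A) (_ : IsScalarTower k A A)
      (_ : SMulCommClass k A A) (_ : NonUnitalNonAssocRing A') (_ : Module k A')
      (_ : IsScalarTower k A' A') (_ : SMulCommClass k A' A'),
      Module.finrank k A = 3 ∧ Module.finrank k A' = 3 ∧
      IsSimpleAlg k A ∧ IsPrimeAlg k A ∧ InVarietyOf k A A' ∧ ¬ IsSectionOf k A A' :=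
  ⟨Tw k (0 : k), Tw k (1 : k), inferInstance, inferInstance, inferInstance, inferInstance,
    inferInstance, inferInstance, inferInstance, inferInstance, finrank_eq 0, finrank_eq 1,
    simple, prime_of_simple simple, inVariety, not_section⟩

end Pool.Agent.Results.MP_2fa119_al.SimpleNotSection
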